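import Pool.Agent.N569.FB.Defs

/-!
# Boxes of full twists as braid words
-/

set_option autoImplicit false

namespace Pool.Agent.N863.FB

open Pool.Agent.H891R2.Jones Pool.Agent.W639.RB Pool.Agent.TH561 Pool.Agent.N569.TW Pool.Agent.N569.VT
  Pool.Agent.N569.FB Pool.Agent.H297.FT Finset LaurentPolynomial

variable {m k : ℕ}

theorem draw_append (O : Outer m) (U V : List (Bool × ℕ)) : draw O (U ++ V) = draw (draw O U) V := by
  unfold draw
  exact List.foldl_append

theorem pushList_draw (O : Outer m) (b : Bool) (w : List ℕ) :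
    O.pushList b w = draw O (w.map (fun i => (b, i))) := by
  unfold Outer.pushList draw
  rw [List.foldl_map]

theorem iter_draw (b : Bool) (w : List ℕ) (t : ℕ) : ∀ O : Outer m,
    (fun O : Outer m => O.pushList b w)^[t] O =
      draw O (List.replicate t (w.map (fun i => (b, i)))).flatten := by
  induction t with
  | zero => intro O; rfl
  | succ t ih =>
    intro O
    rw [Function.iterate_succ_apply, ih, List.replicate_succ, List.flatten_cons, draw_append,
      pushList_draw]

theorem rep_mem (b : Bool) (w : List ℕ) (t : ℕ) (hw : ∀ i ∈ w, i + 1 < m) :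
    ∀ x ∈ (List.replicate t (w.map (fun i => (b, i)))).flatten, x.2 + 1 < m := by
  intro x hx
  rw [List.mem_flatten] at hx
  obtain ⟨L, hL, hx⟩ := hx
  rw [List.mem_replicate] at hL
  rw [hL.2, List.mem_map] at hx
  obtain ⟨i, hi, rfl⟩ := hx
  exact hw i hi

theorem rep_length (b : Bool) (w : List ℕ) (t : ℕ) :
    (List.replicate t (w.map (fun i => (b, i)))).flatten.length = t * w.length := by
  rw [List.length_flatten, List.map_replicate, List.sum_replicate, List.length_map, smul_eq_mul]

theorem cast_len (n t : ℕ) : ((t * (n * (n - 1)) : ℕ) : ℤ) = (t : ℤ) * (n * ((n : ℤ) - 1)) := by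
  rcases Nat.eq_zero_or_pos n with h0 | h0
  · subst h0; simp
  · push_cast [Nat.cast_sub h0]
    ring

theorem box_draw (off n : ℕ) (h : off + n ≤ m) (a : ℤ) : ∃ W : List (Bool × ℕ),
    (∀ x ∈ W, x.2 + 1 < m) ∧ (W.length : ℤ) = |a| * (n * ((n : ℤ) - 1)) ∧
      ∀ O : Outer m, box O off n a = draw O W := by
  have hw : ∀ i ∈ twistWord n off, i + 1 < m := by
    intro i hi
    have := twistWord_mem n off i hi
    omega
  rcases a with t | t
  · refine ⟨(List.replicate t ((twistWord n off).map (fun i => (true, i)))).flatten,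
      rep_mem _ _ _ hw, ?_, fun O => ?_⟩
    · rw [rep_length, twistWord_length, cast_len]
      congr 1
      simp
    · exact iter_draw true (twistWord n off) t O
  · refine ⟨(List.replicate (t + 1) ((twistWord n off).reverse.map (fun i => (false, i)))).flatten,
      rep_mem _ _ _ (fun i hi => hw i (List.mem_reverse.1 hi)), ?_, fun O => ?_⟩
    · rw [rep_length, List.length_reverse, twistWord_length, cast_len]
      congr 1
    · exact iter_draw false (twistWord n off).reverse (t + 1) O

theorem fillL_draw (B : Boxes m k) (a : Fin k → ℤ) (l : List (Fin k)) : ∃ W : List (Bool × ℕ),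
    (∀ x ∈ W, x.2 + 1 < m) ∧
      (W.length : ℤ) = (l.map fun e => |a e| * (B.size e * ((B.size e : ℤ) - 1))).sum ∧
      ∀ O : Outer m, fillL B a l O = draw O W := by
  induction l with
  | nil => exact ⟨[], by simp, by simp, fun O => rfl⟩
  | cons e l ih =>
    obtain ⟨W, h1, h2, h3⟩ := ih
    obtain ⟨V, g1, g2, g3⟩ := box_draw (B.off e) (B.size e) (B.le e) (a e)
    refine ⟨V ++ W, ?_, ?_, fun O => ?_⟩
    · intro x hx
      rcases List.mem_append.1 hx with hx | hx
      · exact g1 x hx
      · exact h1 x hx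
    · rw [List.length_append, List.map_cons, List.sum_cons, ← h2, ← g2]
      push_cast
      ring
    · have e1 : fillL B a (e :: l) O = fillL B a l (box O (B.off e) (B.size e) (a e)) := rfl
      rw [e1, h3, g3, draw_append]

/-- FB5 -/
theorem fill_draw (B : Boxes m k) (a : Fin k → ℤ) : ∃ W : List (Bool × ℕ), (∀ x ∈ W, x.2 + 1 < m) ∧
    (W.length : ℤ) = ∑ e, |a e| * (B.size e * (B.size e - 1)) ∧ ∀ O : Outer m, fill O B a = draw O W := by
  obtain ⟨W, h1, h2, h3⟩ := fillL_draw B a (List.finRange k)
  refine ⟨W, h1, ?_, fun O => h3 O⟩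
  rw [h2, Fin.sum_univ_def]

end Pool.Agent.N863.FB
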